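import Mathlib

/-!
Two selection lemmas: a short hitting sequence (union bound), and a positive vector at which
finitely many nonzero linear forms do not vanish.
-/

namespace H42.WK

/-- union bound: a sequence of length `q` which leaves every bad set. -/
theorem exists_hitting {α R : Type*} [Fintype α] [Fintype R] (bad : R → Finset α) (β q : ℕ)
    (hb : ∀ r, (bad r).card ≤ β) (h : Fintype.card R * β ^ q < Fintype.card α ^ q) :
    ∃ g : Fin q → α, ∀ r, ∃ i, g i ∉ bad r := by
  classical
  by_contra hcon
  push Not at hcon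
  have hsub : (Finset.univ : Finset (Fin q → α)) ⊆
      Finset.univ.biUnion (fun r : R => Fintype.piFinset (fun _ : Fin q => bad r)) := by
    intro g _
    obtain ⟨r, hr⟩ := hcon g
    rw [Finset.mem_biUnion]
    exact ⟨r, Finset.mem_univ _, Fintype.mem_piFinset.2 hr⟩
  have h1 := Finset.card_le_card hsub
  have h2 : (Finset.univ.biUnion
      (fun r : R => Fintype.piFinset (fun _ : Fin q => bad r))).card ≤
      Fintype.card R * β ^ q := by
    refine Finset.card_biUnion_le.trans ?_
    have : ∀ r ∈ (Finset.univ : Finset R),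
        (Fintype.piFinset (fun _ : Fin q => bad r)).card ≤ β ^ q := by
      intro r _
      rw [Fintype.card_piFinset]
      simp only [Finset.prod_const, Finset.card_univ, Fintype.card_fin]
      exact Nat.pow_le_pow_left (hb r) q
    calc ∑ r : R, (Fintype.piFinset (fun _ : Fin q => bad r)).card
        ≤ ∑ _r : R, β ^ q := Finset.sum_le_sum this
      _ = Fintype.card R * β ^ q := by simp
  rw [Finset.card_univ, Fintype.card_fun, Fintype.card_fin] at h1
  omega

/-- a positive vector where finitely many nonzero linear forms do not vanish. -/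
theorem exists_generic {G S : Type*} [Fintype G] [Finite S] (c : S → G → ℝ)
    (hc : ∀ s, c s ≠ 0) :
    ∃ α : G → ℝ, (∀ g, 0 < α g) ∧ ∀ s, ∑ g, α g * c s g ≠ 0 := by
  classical
  let e : G ≃ Fin (Fintype.card G) := Fintype.equivFin G
  let p : S → Polynomial ℝ := fun s => ∑ g, Polynomial.monomial (e g).1 (c s g)
  have hp : ∀ s, p s ≠ 0 := by
    intro s h0
    obtain ⟨g, hg⟩ := Function.ne_iff.1 (hc s)
    apply hg
    have h1 := congrArg (fun r : Polynomial ℝ => r.coeff (e g).1) h0
    simp only [p, Polynomial.finsetSum_coeff, Polynomial.coeff_zero,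
      Polynomial.coeff_monomial] at h1
    rw [Finset.sum_eq_single g] at h1
    · simpa using h1
    · intro b _ hb
      rw [if_neg]
      intro h
      exact hb (e.injective (Fin.ext h))
    · intro h; exact absurd (Finset.mem_univ _) h
  have hfin : (⋃ s, {t : ℝ | (p s).IsRoot t}).Finite :=
    Set.finite_iUnion fun s => Polynomial.finite_setOfPred_isRoot (hp s)
  have hinf : (Set.Ioi (0:ℝ)).Infinite := Set.Ioi_infinite 0
  obtain ⟨t, ht, hnt⟩ := hinf.exists_notMem_finite hfin
  refine ⟨fun g => t ^ (e g).1, fun g => pow_pos ht _, fun s h0 => hnt ?_⟩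
  rw [Set.mem_iUnion]
  refine ⟨s, ?_⟩
  show (p s).IsRoot t
  rw [Polynomial.IsRoot.def]
  simp only [p, Polynomial.eval_finsetSum, Polynomial.eval_monomial]
  rw [← h0]
  exact Finset.sum_congr rfl fun g _ => mul_comm _ _

end H42.WK
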