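import Mathlib

/-!
The one-sided walk lemma: along a walk of chambers `(P i, N i)` with flats `Φ i ⊇ N i`, only few
elements can cross from `N` to `P`.
-/

open Module Submodule Finset

namespace H42.WK

variable {ι : Type*} [Fintype ι] [DecidableEq ι] {E : Type*} [AddCommGroup E] [Module ℝ E]
  [FiniteDimensional ℝ E]

/-- the intersection of the first flats. -/
def Th (Φ : ℕ → Submodule ℝ E) : ℕ → Submodule ℝ E
  | 0 => Φ 0
  | (i + 1) => Th Φ i ⊓ Φ (i + 1)

theorem Th_le (Φ : ℕ → Submodule ℝ E) : ∀ i, Th Φ i ≤ Φ i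
  | 0 => le_rfl
  | (_ + 1) => inf_le_right

theorem Th_le_zero (Φ : ℕ → Submodule ℝ E) : ∀ i, Th Φ i ≤ Φ 0
  | 0 => le_rfl
  | (i + 1) => inf_le_left.trans (Th_le_zero Φ i)

open Classical in
/-- the walk lemma. `d = j - 3`, `Φ i` is the flat spanned by the negative side. -/
theorem walk {w : ι → E} {κ ν ξ W d L : ℕ} {E0 : Finset ι} (P N : ℕ → Finset ι)
    (Φ : ℕ → Submodule ℝ E)
    (hFC : ∀ H : Submodule ℝ E, finrank ℝ H ≤ κ + 1 →
      (univ.filter fun e => w e ∈ H).card ≤ ν + finrank ℝ H)
    (hdis : Disjoint (N 0) E0)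
    (hC : ∀ i ≤ L, ∀ e ∈ N 0, e ∈ P i ∨ e ∈ N i)
    (hN : ∀ i ≤ L, ∀ e ∈ N i, w e ∈ Φ i)
    (hE : ∀ i ≤ L, (E0.filter fun e => w e ∉ Φ i).card ≤ d)
    (hP : ∀ i ≤ L, ((P i).filter fun e => w e ∈ Φ i).card ≤ ξ)
    (hdim : finrank ℝ (Φ 0) ≤ κ + 2 + d)
    (hW : ∀ i < L, (N i ∩ P (i + 1)).card ≤ W)
    (hN0 : ν + κ + 1 + d + (d + 1) * (ξ + W + d) < (N 0).card + E0.card) :
    (N 0 ∩ P L).card ≤ ξ + d * (ξ + W) := by
  -- count of the elements of a flat
  have hcount : ∀ H : Submodule ℝ E, (N 0).card + E0.card ≤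
      (univ.filter fun e => w e ∈ H).card + ((N 0).filter fun e => w e ∉ H).card +
        (E0.filter fun e => w e ∉ H).card := by
    intro H
    have h1 := Finset.card_filter_add_card_filter_not (s := N 0) (fun e => w e ∈ H)
    have h2 := Finset.card_filter_add_card_filter_not (s := E0) (fun e => w e ∈ H)
    have h3 : ((N 0).filter fun e => w e ∈ H).card + (E0.filter fun e => w e ∈ H).card ≤
        (univ.filter fun e => w e ∈ H).card := by
      rw [← Finset.card_union_of_disjoint]
      · apply Finset.card_le_card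
        intro e he
        rw [mem_union, mem_filter, mem_filter] at he
        rw [mem_filter]
        exact ⟨mem_univ _, by tauto⟩
      · exact Finset.disjoint_filter_filter hdis
    omega
  have key : ∀ i ≤ L, κ + 2 ≤ finrank ℝ (Th Φ i) ∧
      ((N 0).filter fun e => w e ∉ Th Φ i).card + finrank ℝ (Th Φ i) * (ξ + W) ≤
        finrank ℝ (Φ 0) * (ξ + W) ∧
      (E0.filter fun e => w e ∉ Th Φ i).card + finrank ℝ (Th Φ i) * d ≤
        d + finrank ℝ (Φ 0) * d := by
    intro i
    induction i with
    | zero =>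
      intro _
      have hz : ((N 0).filter fun e => w e ∉ Φ 0).card = 0 := by
        rw [card_eq_zero, filter_eq_empty_iff]
        intro e he h
        exact h (hN 0 (Nat.zero_le _) e he)
      have hE0 := hE 0 (Nat.zero_le _)
      refine ⟨?_, ?_, ?_⟩
      · by_contra hcon
        push Not at hcon
        have h1 := hFC (Φ 0) (by show finrank ℝ (Th Φ 0) ≤ κ + 1; omega)
        have h2 := hcount (Φ 0)
        have h3 : finrank ℝ (Φ 0) < κ + 2 := hcon
        have : 0 ≤ (d + 1) * (ξ + W + d) := Nat.zero_le _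
        omega
      · show ((N 0).filter fun e => w e ∉ Φ 0).card + finrank ℝ (Φ 0) * (ξ + W) ≤ _
        omega
      · show (E0.filter fun e => w e ∉ Φ 0).card + finrank ℝ (Φ 0) * d ≤ _
        omega
    | succ i ih =>
      intro hi
      obtain ⟨h1, h2, h3⟩ := ih (by omega)
      by_cases heq : Th Φ (i + 1) = Th Φ i
      · rw [heq]; exact ⟨h1, h2, h3⟩
      have hlt : Th Φ (i + 1) < Th Φ i := lt_of_le_of_ne inf_le_left heq
      have hfr : finrank ℝ (Th Φ (i + 1)) < finrank ℝ (Th Φ i) := Submodule.finrank_lt_finrank_of_lt hlt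
      have hfr0 : finrank ℝ (Th Φ i) ≤ finrank ℝ (Φ 0) := Submodule.finrank_mono (Th_le_zero Φ i)
      -- loss in `N 0`
      have hA : ((N 0).filter fun e => w e ∉ Th Φ (i + 1)).card ≤
          ((N 0).filter fun e => w e ∉ Th Φ i).card + (ξ + W) := by
        have hsub : ((N 0).filter fun e => w e ∉ Th Φ (i + 1)) ⊆
            ((N 0).filter fun e => w e ∉ Th Φ i) ∪
              (((P i).filter fun e => w e ∈ Φ i) ∪ (N i ∩ P (i + 1))) := by
          intro e he
          rw [mem_filter] at he
          obtain ⟨he0, he1⟩ := he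
          by_cases h4 : w e ∈ Th Φ i
          · have h5 : w e ∉ Φ (i + 1) := fun h => he1 ⟨h4, h⟩
            have h6 : e ∈ P (i + 1) := by
              rcases hC (i + 1) hi e he0 with h | h
              · exact h
              · exact absurd (hN (i + 1) hi e h) h5
            rcases hC i (by omega) e he0 with h | h
            · exact mem_union_right _ (mem_union_left _ (mem_filter.2 ⟨h, Th_le Φ i h4⟩))
            · exact mem_union_right _ (mem_union_right _ (mem_inter.2 ⟨h, h6⟩))
          · exact mem_union_left _ (mem_filter.2 ⟨he0, h4⟩)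
        have h7 := card_le_card hsub
        have h8 := card_union_le ((N 0).filter fun e => w e ∉ Th Φ i)
          (((P i).filter fun e => w e ∈ Φ i) ∪ (N i ∩ P (i + 1)))
        have h9 := card_union_le ((P i).filter fun e => w e ∈ Φ i) (N i ∩ P (i + 1))
        have h10 := hP i (by omega)
        have h11 := hW i (by omega)
        omega
      -- loss in `E0`
      have hB : (E0.filter fun e => w e ∉ Th Φ (i + 1)).card ≤
          (E0.filter fun e => w e ∉ Th Φ i).card + d := by
        have hsub : (E0.filter fun e => w e ∉ Th Φ (i + 1)) ⊆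
            (E0.filter fun e => w e ∉ Th Φ i) ∪ (E0.filter fun e => w e ∉ Φ (i + 1)) := by
          intro e he
          rw [mem_filter] at he
          obtain ⟨he0, he1⟩ := he
          by_cases h4 : w e ∈ Th Φ i
          · exact mem_union_right _ (mem_filter.2 ⟨he0, fun h => he1 ⟨h4, h⟩⟩)
          · exact mem_union_left _ (mem_filter.2 ⟨he0, h4⟩)
        have h7 := card_le_card hsub
        have h8 := card_union_le (E0.filter fun e => w e ∉ Th Φ i)
          (E0.filter fun e => w e ∉ Φ (i + 1))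
        have h9 := hE (i + 1) hi
        omega
      have hA2 : ((N 0).filter fun e => w e ∉ Th Φ (i + 1)).card +
          finrank ℝ (Th Φ (i + 1)) * (ξ + W) ≤ finrank ℝ (Φ 0) * (ξ + W) := by
        have h4 : (finrank ℝ (Th Φ (i + 1)) + 1) * (ξ + W) ≤ finrank ℝ (Th Φ i) * (ξ + W) :=
          Nat.mul_le_mul_right _ hfr
        rw [add_mul, one_mul] at h4
        omega
      have hB2 : (E0.filter fun e => w e ∉ Th Φ (i + 1)).card +
          finrank ℝ (Th Φ (i + 1)) * d ≤ d + finrank ℝ (Φ 0) * d := by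
        have h4 : (finrank ℝ (Th Φ (i + 1)) + 1) * d ≤ finrank ℝ (Th Φ i) * d :=
          Nat.mul_le_mul_right _ hfr
        rw [add_mul, one_mul] at h4
        omega
      refine ⟨?_, hA2, hB2⟩
      by_contra hcon
      push Not at hcon
      -- before the drop at most `d` dimensions were lost
      have hm : finrank ℝ (Φ 0) ≤ finrank ℝ (Th Φ i) + d := by omega
      have hA3 : ((N 0).filter fun e => w e ∉ Th Φ i).card ≤ d * (ξ + W) := by
        have h4 : finrank ℝ (Φ 0) * (ξ + W) ≤ (finrank ℝ (Th Φ i) + d) * (ξ + W) :=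
          Nat.mul_le_mul_right _ hm
        rw [add_mul] at h4
        omega
      have hB3 : (E0.filter fun e => w e ∉ Th Φ i).card ≤ d + d * d := by
        have h4 : finrank ℝ (Φ 0) * d ≤ (finrank ℝ (Th Φ i) + d) * d :=
          Nat.mul_le_mul_right _ hm
        rw [add_mul] at h4
        omega
      have h5 := hFC (Th Φ (i + 1)) (by omega)
      have h6 := hcount (Th Φ (i + 1))
      have h7 : (d + 1) * (ξ + W + d) = d * (ξ + W) + d * d + (ξ + W) + d := by ring
      omega
  obtain ⟨h1, h2, -⟩ := key L le_rfl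
  have hm : finrank ℝ (Φ 0) ≤ finrank ℝ (Th Φ L) + d := by omega
  have hA3 : ((N 0).filter fun e => w e ∉ Th Φ L).card ≤ d * (ξ + W) := by
    have h4 : finrank ℝ (Φ 0) * (ξ + W) ≤ (finrank ℝ (Th Φ L) + d) * (ξ + W) :=
      Nat.mul_le_mul_right _ hm
    rw [add_mul] at h4
    omega
  have hsub : N 0 ∩ P L ⊆ ((P L).filter fun e => w e ∈ Φ L) ∪
      ((N 0).filter fun e => w e ∉ Th Φ L) := by
    intro e he
    rw [mem_inter] at he
    by_cases h4 : w e ∈ Th Φ L
    · exact mem_union_left _ (mem_filter.2 ⟨he.2, Th_le Φ L h4⟩)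
    · exact mem_union_right _ (mem_filter.2 ⟨he.1, h4⟩)
  have h7 := card_le_card hsub
  have h8 := card_union_le ((P L).filter fun e => w e ∈ Φ L) ((N 0).filter fun e => w e ∉ Th Φ L)
  have h9 := hP L le_rfl
  omega

end H42.WK
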