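import Pool.Agent.H81.WK.Defs
import Pool.Agent.H42.WK.Walk

/-! A chain of failing cells crosses few elements: the walk lemma for `Fam` and `CellS`. -/

set_option linter.unusedSectionVars false

open Module Submodule H15

namespace H42.WK

open H81.WK

variable {ι : Type*} [Fintype ι] {E : Type*} [AddCommGroup E] [Module ℝ E]
  [FiniteDimensional ℝ E]

theorem cellS_symm {w : ι → E} {j κ f ν δ : ℕ} {P N : Set ι} {Φp Φn : Submodule ℝ E}
    (h : CellS w j κ f ν δ P N Φp Φn) : CellS w j κ f ν δ N P Φn Φp where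
  hP := h.hN
  hN := h.hP
  dp := h.dn
  dn := h.dp
  sum := by have := h.sum; omega
  ep := by
    have := h.en
    rw [Set.union_comm]
    exact this
  en := by
    have := h.ep
    rw [Set.union_comm]
    exact this
  ex := by have := h.ex; omega
  cap := by
    have := h.cap
    have h2 : {i | w i ∈ Φn ∧ w i ∈ Φp} = {i | w i ∈ Φp ∧ w i ∈ Φn} := by
      ext i; exact And.comm
    rw [h2]; exact this

theorem walkF {w : ι → E} {j κ f ν δ W : ℕ} (hF : Fam w j κ f ν) {L : ℕ} {P N : ℕ → Set ι}
    {C : Set ι} (hC : C.ncard = κ + j + 2 + δ) (hPN : ∀ i ≤ L, P i ∪ N i = C)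
    (hd : ∀ i ≤ L, Disjoint (P i) (N i)) {Φp Φn : ℕ → Submodule ℝ E}
    (hcell : ∀ i ≤ L, CellS w j κ f ν δ (P i) (N i) (Φp i) (Φn i))
    (hsN : ∀ i < L, (N (i + 1) \ N i).ncard ≤ W)
    (hMP : 3 + δ + j + j * (δ + W + j + 2) < (P 0).ncard) :
    (P 0 ∩ N L).ncard ≤ 3 * (2 + δ) + 2 * j * (1 + (δ + W + j + 2)) := by
  classical
  have h0 := hcell 0 (Nat.zero_le _)
  have hj3 : 3 ≤ j := by have := h0.ep; omega
  obtain ⟨d, rfl⟩ : ∃ d, j = d + 3 := ⟨j - 3, by omega⟩
  have hcc := Set.ncard_add_ncard_compl C
  rw [hC, Nat.card_eq_fintype_card] at hcc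
  have hcard := hF.card
  rw [hF.dim] at hcard
  have hfin : ∀ (S : Set ι) [Fintype S], (S.toFinset).card = S.ncard := fun S _ =>
    (Set.ncard_eq_toFinset_card' S).symm
  have key := walk (w := w) (κ := κ) (ν := ν) (ξ := 2 + δ) (W := W) (d := d) (L := L)
    (E0 := (Cᶜ).toFinset) (fun i => (N i).toFinset) (fun i => (P i).toFinset) Φp
    (by
      intro H hH
      have := hF.fc H hH
      rw [Set.ncard_eq_toFinset_card'] at this
      refine le_trans (le_of_eq ?_) this
      congr 1
      ext i; simp)
    (by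
      rw [Finset.disjoint_left]
      intro e he he'
      rw [Set.mem_toFinset] at he he'
      exact he' (hPN 0 (Nat.zero_le _) ▸ Or.inl he))
    (by
      intro i hi e he
      rw [Set.mem_toFinset] at he
      rw [Set.mem_toFinset, Set.mem_toFinset]
      have : e ∈ P i ∪ N i := by
        rw [hPN i hi, ← hPN 0 (Nat.zero_le _)]; exact Or.inl he
      exact this.symm)
    (by
      intro i hi e he
      rw [Set.mem_toFinset] at he
      exact (hcell i hi).hP e he)
    (by
      intro i hi
      have := (hcell i hi).ep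
      rw [Set.ncard_eq_toFinset_card'] at this
      have h2 : ((Cᶜ).toFinset.filter fun e => w e ∉ Φp i) =
          {e | e ∉ P i ∪ N i ∧ w e ∉ Φp i}.toFinset := by
        ext e
        rw [Finset.mem_filter, Set.mem_toFinset, Set.mem_toFinset, hPN i hi]
        rfl
      rw [h2]
      omega)
    (by
      intro i hi
      have := (hcell i hi).ex
      have h2 : ((N i).toFinset.filter fun e => w e ∈ Φp i) =
          {e | e ∈ N i ∧ w e ∈ Φp i}.toFinset := by
        ext e
        rw [Finset.mem_filter, Set.mem_toFinset, Set.mem_toFinset]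
        rfl
      rw [h2, hfin]
      omega)
    (by
      have h1 := h0.sum
      have h2 := h0.dn
      omega)
    (by
      intro i hi
      refine le_trans ?_ (hsN i hi)
      rw [← hfin]
      apply Finset.card_le_card
      intro e he
      rw [Finset.mem_inter, Set.mem_toFinset, Set.mem_toFinset] at he
      rw [Set.mem_toFinset]
      exact ⟨he.2, fun h => Set.disjoint_left.1 (hd i hi.le) he.1 h⟩)
    (by
      show _ < ((P 0).toFinset).card + _
      rw [hfin, hfin]
      have h1 : (d + 1) * (2 + δ + W + d) ≤ (d + 3) * (δ + W + (d + 3) + 2) :=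
        Nat.mul_le_mul (by omega) (by omega)
      omega)
  have h3 : ((fun i => (P i).toFinset) 0 ∩ (fun i => (N i).toFinset) L).card =
      (P 0 ∩ N L).ncard := by
    rw [← hfin]
    congr 1
    ext e; simp
  rw [h3] at key
  refine key.trans ?_
  have h4 : d * (2 + δ + W) ≤ 2 * (d + 3) * (1 + (δ + W + (d + 3) + 2)) :=
    Nat.mul_le_mul (by omega) (by omega)
  omega

end H42.WK
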